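import Mathlib

set_option autoImplicit false

namespace Pool.Agent.H.MP_3c821f_gt

open Complex ComplexConjugate

abbrev E := ℂ × ℂ
abbrev S := Metric.sphere (0 : E) 1

def D (a b : ℂ) (v : E) : E := (a * v.1, b * v.2)
def mul (x y : E) : E := (x.1 * y.1 - x.2 * conj y.2, x.1 * y.2 + x.2 * conj y.1)
def A (t : ℝ) (v : E) : E := (v.1 + t * v.2, v.2 - t * v.1)
def rot (t : ℝ) (v : E) : E := ((1 - t) * v.1 - t * v.2, t * v.1 + (1 - t) * v.2)
def rot' (t : ℝ) (v : E) : E := ((1 - t) * v.1 + t * v.2, -t * v.1 + (1 - t) * v.2)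
def P (k : ℕ) (v : E) : E := (v.1 ^ k, v.2)
def Pb (v : E) : E := (conj v.1 ^ 2, v.2)
def R (q : E) : E := (q.1 ^ 3, q.2 ^ 2)
def F (q : E) : E := (conj q.1 ^ 2, q.2 ^ 3)
noncomputable def mu (q : E) : ℝ := max 0 (-(q.1 ^ 3).re) * max 0 (-(q.2 ^ 2).re)
noncomputable def u (t : ℝ) (z : ℂ) : ℂ := exp (((t * (arg (-z) + Real.pi) : ℝ) : ℂ) * I)

theorem mul_ne {x y : E} (hx : x ≠ 0) (hy : y ≠ 0) : mul x y ≠ 0 := by
  intro h
  have e : normSq (mul x y).1 + normSq (mul x y).2 =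
      (normSq x.1 + normSq x.2) * (normSq y.1 + normSq y.2) := by
    simp only [mul, normSq_apply, sub_re, mul_re, conj_re, conj_im, sub_im, mul_im, add_re, add_im]
    ring
  have pos : ∀ v : E, v ≠ 0 → 0 < normSq v.1 + normSq v.2 := by
    intro v hv
    have a1 := normSq_nonneg v.1
    have a2 := normSq_nonneg v.2
    by_contra hc
    apply hv
    ext
    · exact normSq_eq_zero.1 (by linarith)
    · exact normSq_eq_zero.1 (by linarith)
  have := mul_pos (pos x hx) (pos y hy)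
  rw [← e, h] at this
  simp at this

theorem lin_ne (a b : ℝ) (hab : 0 < a ^ 2 + b ^ 2) {v : E} (hv : v ≠ 0) :
    ((a * v.1 - b * v.2, b * v.1 + a * v.2) : E) ≠ 0 := by
  intro h
  have h1 : a * v.1 - b * v.2 = 0 := congrArg Prod.fst h
  have h2 : b * v.1 + a * v.2 = 0 := congrArg Prod.snd h
  have h3 : ((a ^ 2 + b ^ 2 : ℝ) : ℂ) ≠ 0 := by exact_mod_cast hab.ne'
  apply hv
  ext
  · apply mul_left_cancel₀ h3
    push_cast
    simp only [Prod.fst_zero, mul_zero]
    linear_combination a * h1 + b * h2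
  · apply mul_left_cancel₀ h3
    push_cast
    simp only [Prod.snd_zero, mul_zero]
    linear_combination a * h2 - b * h1

theorem A_ne (t : ℝ) {v : E} (hv : v ≠ 0) : A t v ≠ 0 := by
  have := lin_ne 1 (-t) (by positivity) hv
  convert this using 2 <;> simp [A] <;> ring

theorem rot_ne (t : ℝ) {v : E} (hv : v ≠ 0) : rot t v ≠ 0 := by
  have := lin_ne (1 - t) t (by nlinarith [sq_nonneg (2 * t - 1)]) hv
  convert this using 2 <;> simp [rot]

theorem rot'_ne (t : ℝ) {v : E} (hv : v ≠ 0) : rot' t v ≠ 0 := by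
  have := lin_ne (1 - t) (-t) (by nlinarith [sq_nonneg (2 * t - 1)]) hv
  convert this using 2 <;> simp [rot']

theorem P_ne (k : ℕ) {v : E} (hv : v ≠ 0) : P k v ≠ 0 := by
  intro h
  apply hv
  ext
  · exact eq_zero_of_pow_eq_zero (show v.1 ^ k = 0 from congrArg Prod.fst h)
  · exact (show v.2 = 0 from congrArg Prod.snd h)

theorem Pb_ne {v : E} (hv : v ≠ 0) : Pb v ≠ 0 := by
  intro h
  apply hv
  ext
  · have := eq_zero_of_pow_eq_zero (show conj v.1 ^ 2 = 0 from congrArg Prod.fst h)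
    simpa using this
  · exact (show v.2 = 0 from congrArg Prod.snd h)

theorem F_ne {v : E} (hv : v ≠ 0) : F v ≠ 0 := by
  intro h
  apply hv
  ext
  · have := eq_zero_of_pow_eq_zero (show conj v.1 ^ 2 = 0 from congrArg Prod.fst h)
    simpa using this
  · exact eq_zero_of_pow_eq_zero (show v.2 ^ 3 = 0 from congrArg Prod.snd h)

theorem D_ne {a b : ℂ} (ha : a ≠ 0) (hb : b ≠ 0) {v : E} (hv : v ≠ 0) : D a b v ≠ 0 := by
  intro h
  apply hv
  ext
  · exact (mul_eq_zero.1 (show a * v.1 = 0 from congrArg Prod.fst h)).resolve_left ha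
  · exact (mul_eq_zero.1 (show b * v.2 = 0 from congrArg Prod.snd h)).resolve_left hb

theorem norm_D {a b : ℂ} (ha : ‖a‖ = 1) (hb : ‖b‖ = 1) (v : E) : ‖D a b v‖ = ‖v‖ := by
  simp [D, Prod.norm_def, ha, hb]

theorem norm_mul_le' (x y : E) : ‖mul x y‖ ≤ 2 * ‖x‖ * ‖y‖ := by
  have a1 := norm_fst_le x
  have a2 := norm_snd_le x
  have a3 := norm_fst_le y
  have a4 := norm_snd_le y
  have b : ∀ p q : ℂ, ‖p‖ ≤ ‖x‖ → ‖q‖ ≤ ‖y‖ → ‖p * q‖ ≤ ‖x‖ * ‖y‖ := fun p q hp hq => by
    rw [norm_mul]; exact mul_le_mul hp hq (norm_nonneg _) (norm_nonneg _)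
  rw [Prod.norm_def]
  apply max_le
  · refine (norm_sub_le _ _).trans ?_
    have := b _ _ a1 a3
    have := b _ (conj y.2) a2 (by simpa using a4)
    linarith
  · refine (norm_add_le _ _).trans ?_
    have := b _ _ a1 a4
    have := b _ (conj y.1) a2 (by simpa using a3)
    linarith

theorem norm_u (t : ℝ) (z : ℂ) : ‖u t z‖ = 1 := norm_exp_ofReal_mul_I _

theorem u_ne (t : ℝ) (z : ℂ) : u t z ≠ 0 := exp_ne_zero _

theorem u_zero (z : ℂ) : u 0 z = 1 := by simp [u]

theorem u_one {z : ℂ} (hz : z ≠ 0) : u 1 z = z / ‖z‖ := by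
  have h := norm_mul_exp_arg_mul_I (-z)
  have h2 : ((‖z‖ : ℝ) : ℂ) ≠ 0 := by simpa using hz
  rw [eq_div_iff h2, u]
  push_cast
  rw [one_mul, add_mul, exp_add, exp_pi_mul_I]
  rw [norm_neg] at h
  linear_combination -h

theorem c_ne {q : E} (hq : ‖q‖ = 1) (t : ℝ) :
    ((1, 1) : E) + ((1 - t) * mu q + t) • (R q - (1, 1)) ≠ 0 := by
  intro h
  set v : ℝ := (1 - t) * mu q + t with hv
  have h1 : 1 + v * (q.1 ^ 3 - 1) = 0 := by simpa [R] using congrArg Prod.fst h
  have h2 : 1 + v * (q.2 ^ 2 - 1) = 0 := by simpa [R] using congrArg Prod.snd h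
  have h0 : (v : ℂ) ≠ 0 := by
    intro h0; rw [h0] at h1; simp at h1
  have e1 : q.1 ^ 3 = ((1 - 1 / v : ℝ) : ℂ) := by
    push_cast; field_simp; linear_combination h1
  have e2 : q.2 ^ 2 = ((1 - 1 / v : ℝ) : ℂ) := by
    push_cast; field_simp; linear_combination h2
  have e3 : |1 - 1 / v| = 1 := by
    rw [Prod.norm_def] at hq
    rcases max_choice ‖q.1‖ ‖q.2‖ with hm | hm <;> rw [hm] at hq
    · have := congrArg norm e1
      rw [norm_pow, hq, norm_real] at this
      simpa using this.symm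
    · have := congrArg norm e2
      rw [norm_pow, hq, norm_real] at this
      simpa using this.symm
  have h0' : v ≠ 0 := by exact_mod_cast h0
  rcases abs_eq (by norm_num : (0 : ℝ) ≤ 1) |>.1 e3 with e | e
  · have : 1 / v = 0 := by linarith
    exact h0' (by simpa using this)
  · have m : mu q = 1 := by
      rw [mu, e1, e2, ofReal_re, e]; norm_num
    have : v = 1 := by rw [hv, m]; ring
    rw [this] at e; norm_num at e

noncomputable def T1 (q : E) (t : ℝ) : E :=
  D (u t q.1) (u t q.2) (mul (A 1 (R q - (1, 1))) (D (u t q.1)⁻¹ (u t q.2)⁻¹ (F q)))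

noncomputable def H1 (q : E) (t : ℝ) : E := (2 : ℝ) • F q + mu q • T1 q t

theorem H1_eq (q : E) (t : ℝ) : H1 q t = D (u t q.1) (u t q.2)
    (mul (A 1 ((1, 1) + mu q • (R q - (1, 1)))) (D (u t q.1)⁻¹ (u t q.2)⁻¹ (F q))) := by
  have a1 := u_ne t q.1
  have a2 := u_ne t q.2
  ext <;> simp [H1, T1, D, mul, A] <;> field_simp <;> ring

theorem H1_ne {q : E} (hq : ‖q‖ = 1) (t : ℝ) : H1 q t ≠ 0 := by
  have hq0 : q ≠ 0 := by rintro rfl; simp at hq
  rw [H1_eq]
  refine D_ne (u_ne _ _) (u_ne _ _) (mul_ne (A_ne _ ?_)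
    (D_ne (inv_ne_zero (u_ne _ _)) (inv_ne_zero (u_ne _ _)) (F_ne hq0)))
  simpa using c_ne hq 0

theorem mu_cont : Continuous mu := by unfold mu; fun_prop

theorem slit {z : ℂ} {k : ℕ} (h : max 0 (-(z ^ k).re) ≠ 0) : -z ∈ slitPlane := by
  by_contra hc
  rw [mem_slitPlane_iff, not_or, not_lt, not_not] at hc
  obtain ⟨h1, h2⟩ := hc
  simp only [neg_re, neg_im, neg_eq_zero, Left.neg_nonpos_iff] at h1 h2
  have e : z = (z.re : ℂ) := by
    apply Complex.ext <;> simp [h2]
  apply h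
  rw [e, ← ofReal_pow, ofReal_re]
  exact max_eq_left (by simpa using pow_nonneg h1 k)

theorem H1_cont : Continuous (fun p : E × ℝ => H1 p.1 p.2) := by
  unfold H1
  apply Continuous.add (by unfold F; fun_prop)
  rw [continuous_iff_continuousAt]
  intro p
  have hm : Continuous (fun p : E × ℝ => mu p.1) := mu_cont.comp continuous_fst
  by_cases h : mu p.1 = 0
  · have hB : Continuous (fun p : E × ℝ => |mu p.1| * (2 * ‖A 1 (R p.1 - (1, 1))‖ * ‖F p.1‖)) := by
      apply hm.abs.mul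
      unfold A R F; fun_prop
    unfold ContinuousAt
    simp only [h, zero_smul]
    apply squeeze_zero_norm _ (by simpa [h] using hB.tendsto p)
    intro x
    rw [norm_smul, Real.norm_eq_abs]
    apply mul_le_mul_of_nonneg_left _ (abs_nonneg _)
    rw [T1, norm_D (norm_u _ _) (norm_u _ _)]
    refine (norm_mul_le' _ _).trans ?_
    rw [norm_D (by simp [norm_u]) (by simp [norm_u])]
  · apply hm.continuousAt.smul
    obtain ⟨h1, h2⟩ := mul_ne_zero_iff.1 h
    have c1 : ContinuousAt (fun p : E × ℝ => u p.2 p.1.1) p := by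
      unfold u
      have : ContinuousAt (fun p : E × ℝ => arg (-p.1.1)) p :=
        ContinuousAt.comp (f := fun p : E × ℝ => -p.1.1) (continuousAt_arg (slit h1)) (by fun_prop)
      fun_prop
    have c2 : ContinuousAt (fun p : E × ℝ => u p.2 p.1.2) p := by
      unfold u
      have : ContinuousAt (fun p : E × ℝ => arg (-p.1.2)) p :=
        ContinuousAt.comp (f := fun p : E × ℝ => -p.1.2) (continuousAt_arg (slit h2)) (by fun_prop)
      fun_prop
    have c3 := c1.inv₀ (u_ne _ _)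
    have c4 := c2.inv₀ (u_ne _ _)
    have c5 : Continuous (fun x : (E × E) × E =>
        D x.1.1.1 x.1.1.2 (mul (A 1 (R x.2 - (1, 1))) (D x.1.2.1 x.1.2.2 (F x.2)))) := by
      unfold D mul A R F
      fun_prop
    exact ContinuousAt.comp (f := fun p : E × ℝ => (((u p.2 p.1.1, u p.2 p.1.2),
      ((u p.2 p.1.1)⁻¹, (u p.2 p.1.2)⁻¹)), p.1)) c5.continuousAt
      (((c1.prodMk c2).prodMk (c3.prodMk c4)).prodMk continuousAt_fst)

theorem H1_equiv {a b : ℂ} (ha : a ^ 3 = 1) (hb : b ^ 2 = 1) (q : E) :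
    H1 (D a b q) 1 = D a b (H1 q 1) := by
  have na : ‖a‖ = 1 := by
    have := congrArg norm ha
    rw [norm_pow, norm_one] at this
    exact (pow_eq_one_iff_of_nonneg (norm_nonneg _) (by norm_num)).1 this
  have nb : ‖b‖ = 1 := by
    have := congrArg norm hb
    rw [norm_pow, norm_one] at this
    exact (pow_eq_one_iff_of_nonneg (norm_nonneg _) (by norm_num)).1 this
  have ca : a * conj a = 1 := by rw [mul_conj, normSq_eq_norm_sq, na]; simp
  have a0 : a ≠ 0 := by rintro rfl; simp at na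
  have b0 : b ≠ 0 := by rintro rfl; simp at nb
  have hR : R (D a b q) = R q := by
    ext <;> simp [R, D, mul_pow, ha, hb]
  have hF : F (D a b q) = D a b (F q) := by
    have : conj a ^ 2 = a := by
      linear_combination (-(conj a) ^ 2) * ha + (a ^ 2 * conj a + a) * ca
    have h3 : b ^ 3 = b := by linear_combination b * hb
    ext <;> simp [F, D, mul_pow, this, h3]
  have hm : mu (D a b q) = mu q := by simp [mu, D, mul_pow, ha, hb]
  by_cases h : mu q = 0
  · rw [H1, H1, hm, h, hF]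
    ext <;> simp [D] <;> ring
  · obtain ⟨h1, h2⟩ := mul_ne_zero_iff.1 h
    have z1 : q.1 ≠ 0 := by intro h0; simp [h0] at h1
    have z2 : q.2 ≠ 0 := by intro h0; simp [h0] at h2
    have u1 : u 1 (D a b q).1 = a * u 1 q.1 := by
      show u 1 (a * q.1) = _
      rw [u_one (mul_ne_zero a0 z1), u_one z1]; simp [na]; ring
    have u2 : u 1 (D a b q).2 = b * u 1 q.2 := by
      show u 1 (b * q.2) = _
      rw [u_one (mul_ne_zero b0 z2), u_one z2]; simp [nb]; ring
    have e : D (a * u 1 q.1)⁻¹ (b * u 1 q.2)⁻¹ (D a b (F q)) = D (u 1 q.1)⁻¹ (u 1 q.2)⁻¹ (F q) := by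
      ext <;> simp [D] <;> field_simp
    rw [H1_eq, H1_eq, hm, hR, hF, u1, u2, e]
    ext <;> simp [D] <;> ring

end Pool.Agent.H.MP_3c821f_gt
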