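import Pool.Agent.H.MP_3c821f_gt.A

set_option autoImplicit false

namespace Pool.Agent.H.MP_3c821f_gt

open Complex ComplexConjugate unitInterval

abbrev NZ := {v : E // v ≠ 0}

theorem S_norm (q : S) : ‖(q : E)‖ = 1 := by simpa using q.2

theorem S_ne (q : S) : (q : E) ≠ 0 := by
  intro h; have := S_norm q; rw [h] at this; simp at this

theorem htpy (K : E → ℝ → E) (hc : Continuous fun p : E × ℝ => K p.1 p.2)
    (hn : ∀ q : S, ∀ t : ℝ, 0 ≤ t → t ≤ 1 → K q t ≠ 0) (f g : C(S, NZ))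
    (hf : ∀ q : S, K q 0 = f q) (hg : ∀ q : S, K q 1 = g q) : f.Homotopic g :=
  ⟨{ toFun := fun p => ⟨K p.2 p.1, hn p.2 p.1 p.1.2.1 p.1.2.2⟩
     continuous_toFun := by
       apply Continuous.subtype_mk
       exact hc.comp (f := fun p : I × S => ((p.2 : E), (p.1 : ℝ))) (by fun_prop)
     map_zero_left := fun q => Subtype.ext (hf q)
     map_one_left := fun q => Subtype.ext (hg q) }⟩

noncomputable def mk (K : E → ℝ → E) (hc : Continuous fun p : E × ℝ => K p.1 p.2) (t : ℝ)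
    (hn : ∀ q : S, K q t ≠ 0) : C(S, NZ) :=
  ⟨fun q => ⟨K q t, hn q⟩, by
    apply Continuous.subtype_mk
    exact hc.comp (f := fun q : S => ((q : E), t)) (by fun_prop)⟩

noncomputable def H2 (q : E) (t : ℝ) : E :=
  mul (A 1 ((1, 1) + ((1 - t) * mu q + t) • (R q - (1, 1)))) (F q)

noncomputable def H3 (q : E) (t : ℝ) : E :=
  mul (A t (P 3 (rot t (P 2 (rot' t q)))))
    (D 1 (exp (Real.pi * (1 - t) * Complex.I)) (Pb (rot t (P 3 (rot' t q)))))

noncomputable def H4 (q : E) (t : ℝ) : E :=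
  ((((1 - t) * (normSq (q.1 ^ 6) + normSq q.2) + t : ℝ) : ℂ), 0)

theorem H2_cont : Continuous fun p : E × ℝ => H2 p.1 p.2 := by
  have := mu_cont
  unfold H2 mul A R F
  fun_prop

theorem H3_cont : Continuous fun p : E × ℝ => H3 p.1 p.2 := by
  unfold H3 mul A P rot rot' D Pb
  fun_prop

theorem H4_cont : Continuous fun p : E × ℝ => H4 p.1 p.2 := by
  have := continuous_normSq
  unfold H4
  fun_prop

theorem H2_ne (q : S) (t : ℝ) : H2 q t ≠ 0 :=
  mul_ne (A_ne _ (c_ne (S_norm q) t)) (F_ne (S_ne q))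

theorem H3_ne (q : S) (t : ℝ) : H3 q t ≠ 0 :=
  mul_ne (A_ne _ (P_ne _ (rot_ne _ (P_ne _ (rot'_ne _ (S_ne q))))))
    (D_ne one_ne_zero (exp_ne_zero _) (Pb_ne (rot_ne _ (P_ne _ (rot'_ne _ (S_ne q))))))

theorem H4_ne (q : S) (t : ℝ) (h0 : 0 ≤ t) (h1 : t ≤ 1) : H4 q t ≠ 0 := by
  intro h
  have h2 : (1 - t) * (normSq (q.1.1 ^ 6) + normSq q.1.2) + t = 0 := by
    exact_mod_cast (show ((((1 - t) * (normSq (q.1.1 ^ 6) + normSq q.1.2) + t : ℝ) : ℂ)) = 0 from
      congrArg Prod.fst h)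
  have a1 := normSq_nonneg (q.1.1 ^ 6)
  have a2 := normSq_nonneg q.1.2
  have a3 : 0 ≤ (1 - t) * (normSq (q.1.1 ^ 6) + normSq q.1.2) := mul_nonneg (by linarith) (by linarith)
  have a4 : t = 0 := by linarith
  rw [a4] at h2
  apply S_ne q
  ext
  · exact eq_zero_of_pow_eq_zero (normSq_eq_zero.1 (by linarith) : q.1.1 ^ 6 = 0)
  · exact normSq_eq_zero.1 (by linarith)

theorem exists_H : ∃ H : C(I × S, E), (∀ p, H p ≠ 0) ∧ (∀ q : S, H (0, q) = H1 q 1) ∧
    ∀ q : S, H (1, q) = (1, 0) := by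
  have n1 : ∀ (q : S) (t : ℝ), H1 q t ≠ 0 := fun q t => H1_ne (S_norm q) t
  have a1 : (mk H1 H1_cont 0 (n1 · 0)).Homotopic (mk H1 H1_cont 1 (n1 · 1)) :=
    htpy H1 H1_cont (fun q t _ _ => n1 q t) _ _ (fun _ => rfl) (fun _ => rfl)
  have a2 : (mk H1 H1_cont 0 (n1 · 0)).Homotopic (mk H3 H3_cont 1 (H3_ne · 1)) := by
    refine htpy H2 H2_cont (fun q t _ _ => H2_ne q t) _ _ (fun q => ?_) (fun q => ?_)
    · show H2 q 0 = H1 q 0
      rw [H1_eq, u_zero, u_zero]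
      simp [H2, D]
    · show H2 q 1 = H3 q 1
      simp [H2, H3, P, rot, rot', D, Pb, R, F]
  have a3 : (mk H4 H4_cont 0 (H4_ne · 0 le_rfl zero_le_one)).Homotopic
      (mk H3 H3_cont 1 (H3_ne · 1)) := by
    refine htpy H3 H3_cont (fun q t _ _ => H3_ne q t) _ _ (fun q => ?_) (fun _ => rfl)
    show H3 q 0 = H4 q 0
    ext
    · simp only [H3, H4, P, rot, rot', D, Pb, mul, A, normSq_eq_conj_mul_self]
      simp [normSq_eq_conj_mul_self]
      ring
    · simp [H3, H4, P, rot, rot', D, Pb, mul, A]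
      ring
  have a4 : (mk H4 H4_cont 0 (H4_ne · 0 le_rfl zero_le_one)).Homotopic
      (mk H4 H4_cont 1 (H4_ne · 1 zero_le_one le_rfl)) :=
    htpy H4 H4_cont H4_ne _ _ (fun _ => rfl) (fun _ => rfl)
  obtain ⟨K⟩ := ((a1.symm.trans a2).trans a3.symm).trans a4
  refine ⟨⟨fun p => (K p : E), by fun_prop⟩, fun p => (K p).2, fun q => ?_, fun q => ?_⟩
  · show ((K (0, q) : NZ) : E) = _
    rw [K.apply_zero]; rfl
  · show ((K (1, q) : NZ) : E) = _
    rw [K.apply_one]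
    show H4 q 1 = _
    simp [H4]

noncomputable def om : ℂ := exp (2 * Real.pi * Complex.I / (3 : ℕ))

theorem om_prim : IsPrimitiveRoot om 3 := isPrimitiveRoot_exp 3 (by norm_num)

noncomputable def ra (k : ZMod 6) : ℂ := om ^ k.val
noncomputable def rb (k : ZMod 6) : ℂ := (-1) ^ k.val

theorem ra3 (k : ZMod 6) : ra k ^ 3 = 1 := by
  rw [ra, ← pow_mul, mul_comm, pow_mul, om_prim.pow_eq_one, one_pow]

theorem rb2 (k : ZMod 6) : rb k ^ 2 = 1 := by
  rw [rb, ← pow_mul, mul_comm, pow_mul]; simp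

theorem ra_add (j k : ZMod 6) : ra (j + k) = ra j * ra k := by
  have : om ^ 6 = 1 := by rw [show 6 = 3 * 2 from rfl, pow_mul, om_prim.pow_eq_one, one_pow]
  rw [ra, ra, ra, ← pow_add, ZMod.val_add, ← pow_eq_pow_mod _ this]

theorem rb_add (j k : ZMod 6) : rb (j + k) = rb j * rb k := by
  have : (-1 : ℂ) ^ 6 = 1 := by norm_num
  rw [rb, rb, rb, ← pow_add, ZMod.val_add, ← pow_eq_pow_mod _ this]

theorem nrm {a : ℂ} {n : ℕ} (hn : n ≠ 0) (ha : a ^ n = 1) : ‖a‖ = 1 := by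
  have := congrArg norm ha
  rw [norm_pow, norm_one] at this
  exact (pow_eq_one_iff_of_nonneg (norm_nonneg _) hn).1 this

noncomputable def rE (k : ZMod 6) (v : E) : E := D (ra k) (rb k) v

theorem norm_rE (k : ZMod 6) (v : E) : ‖rE k v‖ = ‖v‖ :=
  norm_D (nrm (by norm_num) (ra3 k)) (nrm (by norm_num) (rb2 k)) v

theorem rE_add (j k : ZMod 6) (v : E) : rE (j + k) v = rE j (rE k v) := by
  simp [rE, D, ra_add, rb_add, mul_assoc]

theorem rE_zero (v : E) : rE 0 v = v := by simp [rE, D, ra, rb]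

theorem rE_cont (k : ZMod 6) : Continuous (rE k) := by unfold rE D; fun_prop

theorem rE_fix {v : E} (h : rE 1 v = v) : v = 0 := by
  have e : (1 : ZMod 6).val = 1 := rfl
  have h1 : om * v.1 = v.1 := by simpa [rE, D, ra, e] using congrArg Prod.fst h
  have h2 : -v.2 = v.2 := by simpa [rE, D, rb, e] using congrArg Prod.snd h
  ext
  · by_contra h0
    exact om_prim.ne_one (by norm_num) (mul_right_cancel₀ h0 (by rw [h1, one_mul]))
  · show v.2 = 0
    linear_combination (-1 / 2 : ℂ) * h2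

noncomputable def rS (k : ZMod 6) (q : S) : S := ⟨rE k q, by simp [norm_rE, S_norm]⟩

theorem rS_cont (k : ZMod 6) : Continuous (rS k) :=
  ((rE_cont k).comp continuous_subtype_val).subtype_mk _

end Pool.Agent.H.MP_3c821f_gt
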