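import Pool.Agent.H.MP_3c821f_gt.B

set_option autoImplicit false

namespace Pool.Agent.H.MP_3c821f_gt

open Complex unitInterval

abbrev Cf := ZMod 6 → I
abbrev X := S × Cf

def T (c : Cf) : Prop := ∃ k, ∀ j, j ≠ k → c j = 0

theorem T_closed : IsClosed {c : Cf | T c} := by
  have : {c : Cf | T c} = ⋃ k, ⋂ j, ⋂ _ : j ≠ k, {c : Cf | c j = 0} := by
    ext c; simp [T]
  rw [this]
  refine isClosed_iUnion_of_finite fun k => isClosed_iInter fun j => isClosed_iInter fun _ => ?_
  exact isClosed_eq (continuous_apply j) continuous_const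

theorem rS_add (j k : ZMod 6) (q : S) : rS (j + k) q = rS j (rS k q) :=
  Subtype.ext (rE_add j k q)

theorem rS_zero (q : S) : rS 0 q = q := Subtype.ext (rE_zero q)

noncomputable def rL (k : ZMod 6) : E →ₗ[ℝ] E where
  toFun := rE k
  map_add' x y := by simp [rE, D, mul_add]
  map_smul' r x := by simp [rE, D, mul_left_comm]

theorem f_eq (k : ZMod 6) (q : E) : H1 (rE k q) 1 = rE k (H1 q 1) := H1_equiv (ra3 k) (rb2 k) q

structure Good (H : C(I × S, E)) : Prop where
  ne : ∀ p, H p ≠ 0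
  zero : ∀ q : S, H (0, q) = H1 q 1
  one : ∀ q : S, H (1, q) = (1, 0)

noncomputable def Phi (H : C(I × S, E)) (x : S) (c : Cf) : E :=
  H1 x 1 + ∑ k, (rE k (H (c k, rS (-k) x)) - H1 x 1)

variable {H : C(I × S, E)}

theorem Phi_cont : Continuous fun p : S × Cf => Phi H p.1 p.2 := by
  have h1 : Continuous fun p : S × Cf => H1 p.1 1 :=
    H1_cont.comp (f := fun p : S × Cf => ((p.1 : E), (1 : ℝ))) (by fun_prop)
  refine h1.add (continuous_finset_sum _ fun k _ => Continuous.sub ?_ h1)
  have := rS_cont (-k)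
  exact (rE_cont k).comp (H.continuous.comp (by fun_prop))

theorem Phi_eq (hH : Good H) (x : S) {c : Cf} {k : ZMod 6} (hk : ∀ j, j ≠ k → c j = 0) :
    Phi H x c = rE k (H (c k, rS (-k) x)) := by
  rw [Phi, Finset.sum_eq_single k, add_sub_cancel]
  · intro j _ hj
    rw [hk j hj, hH.zero, ← f_eq, sub_eq_zero]
    show H1 (rE j (rE (-j) x)) 1 = _
    rw [← rE_add, add_neg_cancel, rE_zero]
  · simp

theorem Phi_ne (hH : Good H) (x : S) {c : Cf} (hc : T c) : Phi H x c ≠ 0 := by
  obtain ⟨k, hk⟩ := hc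
  rw [Phi_eq hH x hk, ← norm_ne_zero_iff, norm_rE, norm_ne_zero_iff]
  exact hH.ne _

def sh (j : ZMod 6) (c : Cf) : Cf := fun k => c (k - j)

theorem Phi_equiv (j : ZMod 6) (x : S) (c : Cf) :
    Phi H (rS j x) (sh j c) = rE j (Phi H x c) := by
  have e : H1 (rS j x) 1 = rE j (H1 x 1) := f_eq j x
  show _ = rL j _
  rw [Phi, Phi, map_add, map_sum, e, ← Equiv.sum_comp (Equiv.addLeft j)]
  congr 1
  refine Finset.sum_congr rfl fun k _ => ?_
  rw [map_sub]
  show rE (j + k) (H (c (j + k - j), rS (-(j + k)) (rS j x))) - _ = rE j (rE k _) - rE j _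
  rw [← rS_add, rE_add, add_sub_cancel_left, show -(j + k) + j = -k by ring]

def MS (H : C(I × S, E)) : Set (ℕ → X) :=
  {p | ∀ n, T (p n).2 ∧ ‖Phi H (p (n + 1)).1 (p n).2‖ • ((p n).1 : E) = Phi H (p (n + 1)).1 (p n).2}

theorem MS_closed : IsClosed (MS H) := by
  rw [MS, Set.setOf_forall]
  refine isClosed_iInter fun n => IsClosed.inter ?_ ?_
  · exact T_closed.preimage (f := fun p : ℕ → X => (p n).2) (by fun_prop)
  · have : Continuous fun p : ℕ → X => Phi H (p (n + 1)).1 (p n).2 :=
      Phi_cont.comp (f := fun p : ℕ → X => ((p (n + 1)).1, (p n).2)) (by fun_prop)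
    exact isClosed_eq (by fun_prop) this

noncomputable def act (j : ZMod 6) (p : MS H) : MS H :=
  ⟨fun n => (rS j (p.1 n).1, sh j (p.1 n).2), fun n => by
    obtain ⟨⟨k, hk⟩, h2⟩ := p.2 n
    refine ⟨⟨k + j, fun i hi => hk _ fun h => hi (by rw [← h]; ring)⟩, ?_⟩
    rw [Phi_equiv, norm_rE]
    conv_rhs => rw [← h2]
    exact ((rL j).map_smul _ _).symm⟩

theorem act_add (j k : ZMod 6) (p : MS H) : act (j + k) p = act j (act k p) := by
  apply Subtype.ext
  funext n
  refine Prod.ext (rS_add _ _ _) (funext fun i => ?_)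
  show (p.1 n).2 (i - (j + k)) = (p.1 n).2 (i - j - k)
  rw [sub_sub]

theorem act_zero (p : MS H) : act 0 p = p := by
  apply Subtype.ext
  funext n
  refine Prod.ext (rS_zero _) (funext fun i => ?_)
  show (p.1 n).2 (i - 0) = (p.1 n).2 i
  rw [sub_zero]

theorem ev_cont (n : ℕ) : Continuous fun p : MS H => p.1 n :=
  (continuous_apply n).comp continuous_subtype_val

theorem act_cont (j : ZMod 6) : Continuous (act (H := H) j) := by
  apply Continuous.subtype_mk
  refine continuous_pi fun n => Continuous.prodMk ((rS_cont j).comp (ev_cont n).fst) ?_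
  exact continuous_pi fun k => (continuous_apply (k - j)).comp (ev_cont n).snd

noncomputable def homeo (H : C(I × S, E)) : MS H ≃ₜ MS H where
  toFun := act 1
  invFun := act (-1)
  left_inv p := by rw [← act_add, neg_add_cancel, act_zero]
  right_inv p := by rw [← act_add, add_neg_cancel, act_zero]
  continuous_toFun := act_cont 1
  continuous_invFun := act_cont (-1)

theorem homeo_iter (n : ℕ) (p : MS H) : (homeo H)^[n] p = act n p := by
  induction n with
  | zero => simp [act_zero]
  | succ n ih =>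
    rw [Function.iterate_succ_apply', ih, Nat.cast_succ, add_comm, act_add]; rfl

theorem homeo_ne (p : MS H) : homeo H p ≠ p := by
  intro h
  have h1 : rS 1 (p.1 0).1 = (p.1 0).1 := congrArg (fun q : MS H => (q.1 0).1) h
  exact S_ne _ (rE_fix (congrArg Subtype.val h1))

noncomputable def gam (s : ℝ) (c : Cf) : Cf := fun k =>
  Set.projIcc 0 1 zero_le_one (min 1 (max 0 (1 - 2 * s)) * c k + if k = 0 then max 0 (2 * s - 1) else 0)

theorem gam_cont : Continuous fun p : ℝ × Cf => gam p.1 p.2 := by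
  refine continuous_pi fun k => continuous_projIcc.comp ?_
  by_cases hk : k = 0 <;> simp only [hk, if_true, if_false] <;> fun_prop

theorem gam_T (s : ℝ) {c : Cf} (hc : T c) : T (gam s c) := by
  obtain ⟨k, hk⟩ := hc
  rcases le_total s (1 / 2) with h | h
  · refine ⟨k, fun j hj => ?_⟩
    rw [gam, hk j hj, max_eq_left (show 2 * s - 1 ≤ 0 by linarith)]
    simp
  · refine ⟨0, fun j hj => ?_⟩
    rw [gam, max_eq_left (show 1 - 2 * s ≤ 0 by linarith)]
    simp [hj]

theorem gam_zero {s : ℝ} (hs : s ≤ 0) (c : Cf) : gam s c = c := by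
  funext k
  rw [gam, max_eq_left (show 2 * s - 1 ≤ 0 by linarith), max_eq_right (show 0 ≤ 1 - 2 * s by linarith),
    min_eq_left (show 1 ≤ 1 - 2 * s by linarith)]
  simp

def del : Cf := fun k => if k = 0 then 1 else 0

theorem gam_one {s : ℝ} (hs : 1 ≤ s) (c : Cf) : gam s c = del := by
  funext k
  rw [gam, max_eq_left (show 1 - 2 * s ≤ 0 by linarith), max_eq_right (show 0 ≤ 2 * s - 1 by linarith)]
  by_cases hk : k = 0
  · simp only [hk, del, if_true]
    exact Set.projIcc_of_right_le _ (by simp; linarith)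
  · simp [hk, del]

theorem Phi_del (hH : Good H) (x : S) : Phi H x del = (1, 0) := by
  rw [Phi_eq hH x (k := 0) (fun j hj => by simp [del, hj]), rE_zero]
  simp only [del, if_true]
  exact hH.one _

noncomputable def nm (v : E) (hv : v ≠ 0) : S :=
  ⟨‖v‖⁻¹ • v, by simp [norm_smul, hv]⟩

theorem nm_smul {v : E} (hv : v ≠ 0) : ‖v‖ • (nm v hv : E) = v := by
  simp [nm, smul_smul, hv]

theorem nm_eq {v : E} (hv : v ≠ 0) {x : S} (h : ‖v‖ • (x : E) = v) : nm v hv = x := by
  apply Subtype.ext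
  show ‖v‖⁻¹ • v = x
  conv_lhs => rw [← h, smul_smul]
  rw [h]
  simp [hv]

noncomputable def sc (n : ℕ) (t : I) : ℝ := (n + 1) * (n + 2) * (t : ℝ) - n * (n + 2)

noncomputable def con (hH : Good H) (t : I) (p : MS H) : MS H :=
  ⟨fun n => (nm (Phi H (p.1 (n + 1)).1 (gam (sc n t) (p.1 n).2)) (Phi_ne hH _ (gam_T _ (p.2 n).1)),
      gam (sc n t) (p.1 n).2), fun n => by
    refine ⟨gam_T _ (p.2 n).1, ?_⟩
    rcases le_or_gt 1 (sc n t) with h | h
    · simp only [gam_one h, Phi_del hH]
      exact nm_smul _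
    · have h2 : sc (n + 1) t ≤ 0 := by
        have a : (0 : ℝ) ≤ n := n.cast_nonneg
        have b : (n + 2) * (t : ℝ) < n + 1 := by
          refine lt_of_mul_lt_mul_left ?_ (show (0 : ℝ) ≤ n + 1 by linarith)
          unfold sc at h; nlinarith
        unfold sc; push_cast; nlinarith
      simp only [gam_zero h2]
      rw [nm_eq _ (p.2 (n + 1)).2]
      exact nm_smul _⟩

theorem con_cont (hH : Good H) : Continuous fun p : I × MS H => con hH p.1 p.2 := by
  apply Continuous.subtype_mk
  refine continuous_pi fun n => ?_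
  have h1 : Continuous fun p : I × MS H => gam (sc n p.1) (p.2.1 n).2 :=
    gam_cont.comp (f := fun p : I × MS H => (sc n p.1, (p.2.1 n).2)) 
      (Continuous.prodMk (by unfold sc; fun_prop) ((ev_cont n).snd.comp continuous_snd))
  have h2 : Continuous fun p : I × MS H => Phi H (p.2.1 (n + 1)).1 (gam (sc n p.1) (p.2.1 n).2) :=
    Phi_cont.comp (f := fun p : I × MS H => ((p.2.1 (n + 1)).1, gam (sc n p.1) (p.2.1 n).2))
      (Continuous.prodMk ((ev_cont (n + 1)).fst.comp continuous_snd) h1)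
  refine Continuous.prodMk (Continuous.subtype_mk ?_ _) h1
  exact (h2.norm.inv₀ fun p => norm_ne_zero_iff.2 (Phi_ne hH _ (gam_T _ (p.2.2 n).1))).smul h2

theorem con_zero (hH : Good H) (p : MS H) : con hH 0 p = p := by
  apply Subtype.ext
  funext n
  have h : sc n 0 ≤ 0 := by
    have a : (0 : ℝ) ≤ n := n.cast_nonneg
    unfold sc; simp; positivity
  simp only [con, gam_zero h]
  rw [nm_eq _ (p.2 n).2]

def e0 : S := ⟨(1, 0), by simp⟩

noncomputable def pt (hH : Good H) : MS H :=
  ⟨fun _ => (e0, del), fun n => ⟨⟨0, fun j hj => by simp [del, hj]⟩, by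
    simp [Phi_del hH, e0]⟩⟩

theorem con_one (hH : Good H) (p : MS H) : con hH 1 p = pt hH := by
  apply Subtype.ext
  funext n
  have h : 1 ≤ sc n 1 := by
    have a : (0 : ℝ) ≤ n := n.cast_nonneg
    unfold sc; simp; nlinarith
  simp only [con, gam_one h, Phi_del hH, pt]
  rw [nm_eq _ (x := e0) (by simp [e0])]

theorem contr (hH : Good H) : ContractibleSpace (MS H) :=
  (contractible_iff_id_nullhomotopic _).2 ⟨pt hH, ⟨
    { toFun := fun p => con hH p.1 p.2
      continuous_toFun := con_cont hH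
      map_zero_left := con_zero hH
      map_one_left := con_one hH }⟩⟩

theorem main : ¬ (∀ (M : Type) [MetricSpace M] [CompactSpace M] [ConnectedSpace M]
    [ContractibleSpace M] (f : M ≃ₜ M), (∃ n : ℕ, 0 < n ∧ (⇑f)^[n] = id) → ∃ x : M, f x = x) := by
  intro h
  obtain ⟨H, h1, h2, h3⟩ := exists_H
  have hH : Good H := ⟨h1, h2, h3⟩
  haveI := contr hH
  haveI : CompactSpace (MS H) := isCompact_iff_compactSpace.1 MS_closed.isCompact
  letI : MetricSpace (MS H) := TopologicalSpace.metrizableSpaceMetric _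
  obtain ⟨x, hx⟩ := h (MS H) (homeo H) ⟨6, by norm_num, funext fun p => by
    rw [homeo_iter, show ((6 : ℕ) : ZMod 6) = 0 from rfl, act_zero]; rfl⟩
  exact homeo_ne x hx

end Pool.Agent.H.MP_3c821f_gt
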